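import Pool.Agent.L7h25.TP.Stm
import Pool.Agent.Y421.AW.Res

/-!
`S_PTS` of the project TP (helper25) with the additional hypothesis that `w` and `D` are coprime.
Port of `Pool.Agent.Y921.AW.Pts` (exponent `8` in characteristic 2).
-/

set_option autoImplicit false

namespace Pool.Agent.L7h76.TP

open Polynomial Pool.Agent.Y140.AW Pool.Agent.L7h25.TP

/-- PTS with the hypothesis that `w` and `D` are coprime. -/
def S_PTSc : Prop :=
  ∀ (K N : Type) [Field K] [CharP K 2] [Field N] [IsAlgClosed N] [Algebra K N]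
    (Θ : K[X][X]) (u w D₀ D : K[X]) (d B m : ℕ), DD Θ D₀ d → BB Θ B m → UW u w → D ≠ 0 →
    IsCoprime w D → D₀ ∣ D →
    ∀ (ν : Fin m → N) (s : N), s ≠ 0 →
    ∃ x θ : Fin (np w D d B) → N, Function.Injective x ∧
      (∀ l, Pt8 Θ u w D B ν s (x l) (θ l)) ∧
      (∀ a b, Pt8 Θ u w D B ν s a b → ∃ l, a = x l ∧ b = θ l)

section deg

variable {K N : Type} [Field K] [Field N] [Algebra K N]

/-- the degree of `G8` -/
theorem G8_deg {u w D : K[X]} (hD : D ≠ 0) (hw : w.Monic) (hu : u.natDegree ≤ 1)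
    {B m : ℕ} (hB1 : 1 ≤ B) (hm : m ≤ B) (ν : Fin m → N) :
    (G8 u w D B ν).natDegree = 8 * (B + D.natDegree) + w.natDegree ∧
      (G8 u w D B ν).coeff (8 * (B + D.natDegree) + w.natDegree) =
        (algebraMap K N D.leadingCoeff) ^ 8 := by
  set E : N[X] := D.map (algebraMap K N) with hE
  set U : N[X] := u.map (algebraMap K N) with hU
  set W : N[X] := w.map (algebraMap K N) with hW
  have hE0 : E ≠ 0 := (Polynomial.map_ne_zero_iff (algebraMap K N).injective).2 hD
  have hEd : E.natDegree = D.natDegree := natDegree_map (algebraMap K N)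
  have hEl : E.leadingCoeff = algebraMap K N D.leadingCoeff := leadingCoeff_map (algebraMap K N)
  have hWm : W.Monic := hw.map _
  have hWd : W.natDegree = w.natDegree := natDegree_map (algebraMap K N)
  have hUd : U.natDegree ≤ 1 := (natDegree_map (algebraMap K N)).le.trans hu
  set δ := D.natDegree with hδ
  set ω := w.natDegree with hω
  have hXE : (X ^ B * E).natDegree = B + δ := by
    rw [natDegree_mul (pow_ne_zero _ X_ne_zero) hE0, natDegree_X_pow, hEd]
  have hQ : (X ^ B * E + 1).natDegree = B + δ := by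
    rw [show (1 : N[X]) = C 1 from C_1.symm, natDegree_add_C, hXE]
  have hQl : (X ^ B * E + 1).leadingCoeff = E.leadingCoeff := by
    rw [leadingCoeff, hQ, coeff_add, coeff_one, if_neg (by omega), add_zero, ← hXE]
    change (X ^ B * E).leadingCoeff = _
    rw [leadingCoeff_mul, leadingCoeff_X_pow, one_mul]
  have hQ0 : (X ^ B * E + 1) ^ 8 ≠ 0 := by
    refine pow_ne_zero _ fun h0 => ?_
    rw [h0, leadingCoeff_zero] at hQl
    exact hE0 (leadingCoeff_eq_zero.1 hQl.symm)
  have hQp : (W * (X ^ B * E + 1) ^ 8).natDegree = 8 * (B + δ) + ω := by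
    rw [natDegree_mul hWm.ne_zero hQ0, natDegree_pow, hQ, hWd, add_comm]
  have hQpl : (W * (X ^ B * E + 1) ^ 8).coeff (8 * (B + δ) + ω) =
      (algebraMap K N D.leadingCoeff) ^ 8 := by
    rw [← hQp]
    change (W * (X ^ B * E + 1) ^ 8).leadingCoeff = _
    rw [leadingCoeff_mul, hWm.leadingCoeff, one_mul, leadingCoeff_pow, hQl, hEl]
  have hEp : (E ^ 8).natDegree = 8 * δ := by rw [natDegree_pow, hEd]
  have hlt1 : (U * E ^ 8).natDegree < 8 * (B + δ) + ω := by
    have h1 : (U * E ^ 8).natDegree ≤ 1 + 8 * δ := by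
      refine natDegree_mul_le.trans ?_
      rw [hEp]
      omega
    omega
  have hlt2 : (W * (E ^ 8 * ∑ a : Fin m, C (ν a) * X ^ (8 * (a : ℕ)))).natDegree <
      8 * (B + δ) + ω := by
    have h1 : (∑ a : Fin m, C (ν a) * X ^ (8 * (a : ℕ))).natDegree ≤ 8 * (B - 1) := by
      refine natDegree_sum_le_of_forall_le _ _ fun a _ => ?_
      refine (natDegree_C_mul_X_pow_le _ _).trans (Nat.mul_le_mul_left 8 ?_)
      have := a.2
      omega
    have h2 : (E ^ 8 * ∑ a : Fin m, C (ν a) * X ^ (8 * (a : ℕ))).natDegree ≤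
        8 * δ + 8 * (B - 1) := by
      refine natDegree_mul_le.trans ?_
      rw [hEp]
      omega
    have h3 := natDegree_mul_le (p := W) (q := E ^ 8 * ∑ a : Fin m, C (ν a) * X ^ (8 * (a : ℕ)))
    rw [hWd] at h3
    omega
  have hGG : G8 u w D B ν = W * (X ^ B * E + 1) ^ 8 +
      (U * E ^ 8 + W * (E ^ 8 * ∑ a : Fin m, C (ν a) * X ^ (8 * (a : ℕ)))) := by
    unfold G8
    rw [← hE, ← hU, ← hW]
    ring
  have hlt : (U * E ^ 8 + W * (E ^ 8 * ∑ a : Fin m, C (ν a) * X ^ (8 * (a : ℕ)))).natDegree <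
      8 * (B + δ) + ω := lt_of_le_of_lt (natDegree_add_le _ _) (max_lt hlt1 hlt2)
  constructor
  · rw [hGG, natDegree_add_eq_left_of_natDegree_lt (by rw [hQp]; exact hlt), hQp]
  · rw [hGG, coeff_add, hQpl, coeff_eq_zero_of_natDegree_lt hlt, add_zero]

/-- the polynomial whose roots are the first coordinates of the points -/
noncomputable def P8 (Θ : K[X][X]) (u w D : K[X]) (B d : ℕ) {m : ℕ} (ν : Fin m → N) (s : N) :
    N[X] :=
  ∑ k ∈ Finset.range (d + 1), ((Θ.coeff k).map (algebraMap K N)) ^ 8 * (G8 u w D B ν) ^ k *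
    (C s * w.map (algebraMap K N) * (D.map (algebraMap K N)) ^ 8) ^ (d - k)

theorem P8_deg {Θ : K[X][X]} {u w D : K[X]} (hD : D ≠ 0) (hw : w.Monic) (hu : u.natDegree ≤ 1)
    {B d m : ℕ} (hΘ : Θ.Monic)
    (hd : Θ.natDegree = d) (hB1 : 1 ≤ B) (hm : m ≤ B) (hc : ∀ k, (Θ.coeff k).natDegree < B)
    (ν : Fin m → N) (s : N) :
    (P8 Θ u w D B d ν s).natDegree = d * (8 * (B + D.natDegree) + w.natDegree) ∧
      (P8 Θ u w D B d ν s).leadingCoeff = (algebraMap K N D.leadingCoeff) ^ (8 * d) := by
  obtain ⟨hg, hgl⟩ := G8_deg hD hw hu hB1 hm ν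
  set g := G8 u w D B ν with hgdef
  set δ := D.natDegree with hδ
  set ω := w.natDegree with hω
  set M := 8 * (B + δ) + ω with hM
  have hgl' : g.leadingCoeff = (algebraMap K N D.leadingCoeff) ^ 8 := by
    rw [leadingCoeff, hg, hgl]
  have h1 : (g ^ d).natDegree = d * M := by rw [natDegree_pow, hg]
  have h2 : (g ^ d).leadingCoeff = (algebraMap K N D.leadingCoeff) ^ (8 * d) := by
    rw [leadingCoeff_pow, hgl', ← pow_mul]
  have hsplit : P8 Θ u w D B d ν s = g ^ d + ∑ k ∈ Finset.range d,
      ((Θ.coeff k).map (algebraMap K N)) ^ 8 * g ^ k *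
        (C s * w.map (algebraMap K N) * (D.map (algebraMap K N)) ^ 8) ^ (d - k) := by
    unfold P8
    rw [Finset.sum_range_succ, add_comm, Nat.sub_self, pow_zero, mul_one, ← hgdef]
    congr 1
    have : Θ.coeff d = 1 := by
      rw [← hd]
      exact hΘ
    rw [this, Polynomial.map_one, one_pow, one_mul]
  by_cases hd0 : d = 0
  · subst hd0
    rw [hsplit]
    simp
  have hMpos : 0 < M := by omega
  have hlow : (∑ k ∈ Finset.range d, ((Θ.coeff k).map (algebraMap K N)) ^ 8 * g ^ k *
      (C s * w.map (algebraMap K N) * (D.map (algebraMap K N)) ^ 8) ^ (d - k)).natDegree <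
      d * M := by
    have h3 : (∑ k ∈ Finset.range d, ((Θ.coeff k).map (algebraMap K N)) ^ 8 * g ^ k *
        (C s * w.map (algebraMap K N) * (D.map (algebraMap K N)) ^ 8) ^ (d - k)).natDegree ≤
        d * M - 1 := by
      refine natDegree_sum_le_of_forall_le _ _ fun k hk => ?_
      have hk' := Finset.mem_range.1 hk
      have e1 : (((Θ.coeff k).map (algebraMap K N)) ^ 8).natDegree ≤ 8 * (B - 1) := by
        rw [natDegree_pow]
        refine Nat.mul_le_mul_left 8 ?_
        rw [natDegree_map]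
        have := hc k
        omega
      have e2 : (g ^ k).natDegree = k * M := by rw [natDegree_pow, hg]
      have e3 : ((C s * w.map (algebraMap K N) *
          (D.map (algebraMap K N)) ^ 8) ^ (d - k)).natDegree ≤ (d - k) * (ω + 8 * δ) := by
        rw [natDegree_pow]
        refine Nat.mul_le_mul_left _ ?_
        refine natDegree_mul_le.trans ?_
        have h5 := natDegree_C_mul_le s (w.map (algebraMap K N))
        rw [natDegree_map] at h5
        rw [natDegree_pow, natDegree_map]
        omega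
      have e4 : ((((Θ.coeff k).map (algebraMap K N)) ^ 8 * g ^ k *
          (C s * w.map (algebraMap K N) * (D.map (algebraMap K N)) ^ 8) ^ (d - k))).natDegree ≤
          8 * (B - 1) + k * M + (d - k) * (ω + 8 * δ) := by
        refine natDegree_mul_le.trans (Nat.add_le_add ?_ e3)
        refine natDegree_mul_le.trans ?_
        rw [e2]
        omega
      have e5 : d * M = (d - k) * (8 * B) + k * M + (d - k) * (ω + 8 * δ) := by
        obtain ⟨c, rfl⟩ : ∃ c, d = k + c := ⟨d - k, by omega⟩
        rw [Nat.add_sub_cancel_left, hM]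
        ring
      have e6 : 8 * (B - 1) + 1 ≤ (d - k) * (8 * B) := by
        have e7 : 1 * (8 * B) ≤ (d - k) * (8 * B) := Nat.mul_le_mul_right _ (by omega)
        omega
      omega
    have h4 : 0 < d * M := Nat.mul_pos (by omega) hMpos
    omega
  have hnd : (P8 Θ u w D B d ν s).natDegree = d * M := by
    rw [hsplit, natDegree_add_eq_left_of_natDegree_lt (by rw [h1]; exact hlow), h1]
  refine ⟨hnd, ?_⟩
  rw [leadingCoeff, hnd, hsplit, coeff_add, coeff_eq_zero_of_natDegree_lt hlow, add_zero, ← h1]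
  exact h2

end deg

section chr

variable {K N : Type} [Field K] [CharP K 2] [Field N] [Algebra K N]

/-- `Θ(a, b)` as a sum -/
theorem tA_eval {K N : Type} [Field K] [Field N] [Algebra K N] {Θ : K[X][X]} {d : ℕ}
    (hd : Θ.natDegree = d) (a b : N) :
    (tA Θ a).eval b = ∑ k ∈ Finset.range (d + 1), aeval a (Θ.coeff k) * b ^ k := by
  have h1 : (tA Θ a).natDegree < d + 1 := by
    have : (tA Θ a).natDegree ≤ Θ.natDegree := natDegree_map_le
    omega
  rw [eval_eq_sum_range' h1]
  refine Finset.sum_congr rfl fun k _ => ?_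
  unfold tA
  rw [coeff_map]
  rfl

theorem tZ_eval {K N : Type} [Field K] [Field N] [Algebra K N] {Θ : K[X][X]} {d : ℕ}
    (hd : Θ.natDegree = d) (a b : N) :
    tZ Θ a b = ∑ k ∈ Finset.range (d + 1), aeval a (Θ.coeff k) * k * b ^ (k - 1) := by
  have h1 : (tA Θ a).natDegree < d + 1 := by
    have : (tA Θ a).natDegree ≤ Θ.natDegree := natDegree_map_le
    omega
  unfold tZ
  rw [derivative_eval, sum_over_range' _ _ _ h1]
  · refine Finset.sum_congr rfl fun k _ => ?_
    have h2 : (tA Θ a).coeff k = aeval a (Θ.coeff k) := by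
      unfold tA
      rw [coeff_map]
      rfl
    rw [h2]
  · intro n
    simp

theorem P8_eval {K N : Type} [Field K] [Field N] [Algebra K N] (Θ : K[X][X]) (u w D : K[X])
    (B d : ℕ) {m : ℕ} (ν : Fin m → N) (s a : N) :
    (P8 Θ u w D B d ν s).eval a = ∑ k ∈ Finset.range (d + 1),
      (aeval a (Θ.coeff k)) ^ 8 * ((G8 u w D B ν).eval a) ^ k *
        (s * aeval a w * (aeval a D) ^ 8) ^ (d - k) := by
  unfold P8
  rw [eval_finsetSum]
  refine Finset.sum_congr rfl fun k _ => ?_
  simp only [eval_mul, eval_pow, eval_C, eval_map_algebraMap]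

theorem sum_pow8 {ι : Type} [CharP N 2] (S : Finset ι) (f : ι → N) :
    (∑ i ∈ S, f i) ^ 8 = ∑ i ∈ S, f i ^ 8 := by
  have h : (8 : ℕ) = 2 ^ 3 := by norm_num
  rw [h]
  have : Fact (Nat.Prime 2) := ⟨Nat.prime_two⟩
  exact sum_pow_char_pow 2 3 S f

/-- the value at a point `a` when `G(a) = s w(a) (D(a) b) ^ 8` -/
theorem P8_eval_pt {Θ : K[X][X]} {u w D : K[X]} {B d m : ℕ} (hd : Θ.natDegree = d)
    (ν : Fin m → N) {s a b : N}
    (hg : (G8 u w D B ν).eval a = s * aeval a w * (aeval a D * b) ^ 8) :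
    (P8 Θ u w D B d ν s).eval a =
      (s * aeval a w * (aeval a D) ^ 8) ^ d * ((tA Θ a).eval b) ^ 8 := by
  have : CharP N 2 := charP_of_injective_algebraMap (algebraMap K N).injective 2
  rw [P8_eval, tA_eval hd, sum_pow8, Finset.mul_sum]
  refine Finset.sum_congr rfl fun k hk => ?_
  have hk' : k ≤ d := by
    have := Finset.mem_range.1 hk
    omega
  rw [hg]
  obtain ⟨c, rfl⟩ : ∃ c, d = k + c := ⟨d - k, by omega⟩
  rw [Nat.add_sub_cancel_left, pow_add]
  have h1 : (s * aeval a w * (aeval a D * b) ^ 8) ^ k =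
      (s * aeval a w * (aeval a D) ^ 8) ^ k * (b ^ k) ^ 8 := by
    rw [← pow_mul, mul_comm k 8, pow_mul, ← mul_pow]
    ring
  rw [h1]
  ring

/-- the derivative of an eighth power -/
theorem der_pow8 [CharP N 2] (f : N[X]) : derivative (f ^ 8) = 0 := by
  have h2 : (2 : N) = 0 := by
    have : ((2 : ℕ) : N) = 0 := CharP.cast_eq_zero N 2
    exact_mod_cast this
  have h8 : (f ^ 8 : N[X]) = (f ^ 4) ^ 2 := by ring
  rw [h8, derivative_sq]
  simp [h2]

theorem G8_der {u w : K[X]} (hUW : UW u w) (D : K[X]) (B : ℕ) {m : ℕ} (ν : Fin m → N) :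
    w.map (algebraMap K N) * derivative (G8 u w D B ν) =
      (D.map (algebraMap K N)) ^ 8 +
        (derivative w).map (algebraMap K N) * G8 u w D B ν := by
  have : CharP N 2 := charP_of_injective_algebraMap (algebraMap K N).injective 2
  have hwr := congrArg (Polynomial.map (algebraMap K N)) hUW.wr
  rw [Polynomial.map_sub, Polynomial.map_mul, Polynomial.map_mul, Polynomial.map_one] at hwr
  unfold G8
  have h1 : derivative (∑ a : Fin m, C (ν a) * X ^ (8 * (a : ℕ))) = 0 := by
    rw [derivative_sum]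
    refine Finset.sum_eq_zero fun a _ => ?_
    rw [mul_comm 8, pow_mul, derivative_C_mul, der_pow8, mul_zero]
  rw [derivative_add, derivative_mul, derivative_mul, derivative_add, der_pow8, der_pow8,
    derivative_mul, der_pow8, h1, derivative_map, derivative_map]
  linear_combination (D.map (algebraMap K N)) ^ 8 * hwr

theorem P8_der (Θ : K[X][X]) {u w : K[X]} (hUW : UW u w) (D : K[X]) (B d : ℕ) {m : ℕ}
    (ν : Fin m → N) (s : N) :
    w.map (algebraMap K N) * derivative (P8 Θ u w D B d ν s) =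
      (∑ k ∈ Finset.range (d + 1),
      ((Θ.coeff k).map (algebraMap K N)) ^ 8 *
        ((k : N[X]) * (G8 u w D B ν) ^ (k - 1) * (D.map (algebraMap K N)) ^ 8) *
        (C s * w.map (algebraMap K N) * (D.map (algebraMap K N)) ^ 8) ^ (d - k)) +
      (d : N[X]) * (derivative w).map (algebraMap K N) * P8 Θ u w D B d ν s := by
  have : CharP N 2 := charP_of_injective_algebraMap (algebraMap K N).injective 2
  unfold P8
  rw [derivative_sum, Finset.mul_sum, Finset.mul_sum, ← Finset.sum_add_distrib]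
  refine Finset.sum_congr rfl fun k hk => ?_
  set W := w.map (algebraMap K N) with hW
  set W' := (derivative w).map (algebraMap K N) with hW'
  set E := D.map (algebraMap K N) with hE
  set H := C s * W * E ^ 8 with hH
  have hWd : derivative W = W' := by rw [hW, hW', derivative_map]
  have hHd : W * derivative H = W' * H := by
    rw [hH, derivative_mul, der_pow8, derivative_mul, derivative_C, hWd]
    ring
  have hG := G8_der (N := N) hUW D B ν
  rw [← hW, ← hW', ← hE] at hG
  have h1 : W * derivative (H ^ (d - k)) = ((d - k : ℕ) : N[X]) * W' * H ^ (d - k) := by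
    rcases Nat.eq_zero_or_pos (d - k) with h0 | h0
    · rw [h0]; simp
    · rw [derivative_pow]
      have e1 : d - k = (d - k - 1) + 1 := by omega
      have e2 : H ^ (d - k) = H ^ (d - k - 1) * H := by
        conv_lhs => rw [e1, pow_succ]
      rw [e2]
      simp only [map_natCast]
      linear_combination ((d - k : ℕ) : N[X]) * H ^ (d - k - 1) * hHd
  have h2 : W * derivative (G8 u w D B ν ^ k) =
      (k : N[X]) * G8 u w D B ν ^ (k - 1) * E ^ 8 + (k : N[X]) * W' * G8 u w D B ν ^ k := by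
    rcases Nat.eq_zero_or_pos k with rfl | h0
    · simp
    · rw [derivative_pow]
      have e1 : k = (k - 1) + 1 := by omega
      have e2 : G8 u w D B ν ^ k = G8 u w D B ν ^ (k - 1) * G8 u w D B ν := by
        conv_lhs => rw [e1, pow_succ]
      rw [e2]
      simp only [map_natCast]
      linear_combination (k : N[X]) * G8 u w D B ν ^ (k - 1) * hG
  have h3 : (d : N[X]) = (k : N[X]) + ((d - k : ℕ) : N[X]) := by
    have := Finset.mem_range.1 hk
    have h4 : d = k + (d - k) := by omega
    conv_lhs => rw [h4]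
    push_cast
    rfl
  rw [derivative_mul, derivative_mul, der_pow8, h3]
  linear_combination ((Θ.coeff k).map (algebraMap K N)) ^ 8 * H ^ (d - k) * h2 +
    ((Θ.coeff k).map (algebraMap K N)) ^ 8 * G8 u w D B ν ^ k * h1

theorem P8_der_eval {Θ : K[X][X]} {u w : K[X]} (hUW : UW u w) {D : K[X]} {B d m : ℕ}
    (hd : Θ.natDegree = d) (ν : Fin m → N) {s a b : N}
    (h0 : (P8 Θ u w D B d ν s).eval a = 0)
    (hg : (G8 u w D B ν).eval a = s * aeval a w * (aeval a D * b) ^ 8) :
    aeval a w * (derivative (P8 Θ u w D B d ν s)).eval a =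
      (aeval a D) ^ 8 * (s * aeval a w * (aeval a D) ^ 8) ^ (d - 1) * (tZ Θ a b) ^ 8 := by
  have : CharP N 2 := charP_of_injective_algebraMap (algebraMap K N).injective 2
  have hev := congrArg (Polynomial.eval a) (P8_der (N := N) Θ hUW D B d ν s)
  have h00 : eval a ((d : N[X]) * (derivative w).map (algebraMap K N) * P8 Θ u w D B d ν s)
      = 0 := by rw [eval_mul, h0, mul_zero]
  rw [eval_mul, eval_add, h00, add_zero, eval_map_algebraMap] at hev
  rw [hev, tZ_eval hd, sum_pow8, Finset.mul_sum, eval_finsetSum]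
  refine Finset.sum_congr rfl fun k hk => ?_
  simp only [eval_mul, eval_pow, eval_C, eval_map_algebraMap, eval_natCast]
  rw [hg]
  have hkp : (k : N) ^ 8 = (k : N) := by
    have := map_natCast (iterateFrobenius N 2 3) k
    rw [iterateFrobenius_def] at this
    norm_num at this
    exact this
  have h0 : (aeval a (Θ.coeff k) * (k : N) * b ^ (k - 1)) ^ 8 =
      (aeval a (Θ.coeff k)) ^ 8 * (k : N) * (b ^ (k - 1)) ^ 8 := by
    rw [mul_pow, mul_pow, hkp]
  rw [h0]
  rcases Nat.eq_zero_or_pos k with rfl | hk0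
  · simp
  have hk' : k ≤ d := by
    have := Finset.mem_range.1 hk
    omega
  obtain ⟨c, rfl⟩ : ∃ c, d = k + c := ⟨d - k, by omega⟩
  obtain ⟨e, rfl⟩ : ∃ e, k = e + 1 := ⟨k - 1, by omega⟩
  have e1 : e + 1 + c - (e + 1) = c := by omega
  have e2 : e + 1 + c - 1 = e + c := by omega
  have e3 : e + 1 - 1 = e := by omega
  rw [e1, e2, e3, pow_add]
  have h1 : (s * aeval a w * (aeval a D * b) ^ 8) ^ e =
      (s * aeval a w * (aeval a D) ^ 8) ^ e * (b ^ e) ^ 8 := by
    rw [← pow_mul, mul_comm e 8, pow_mul, ← mul_pow]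
    ring
  rw [h1]
  ring

end chr

/-- **PTS** (with the hypothesis that `w` and `D` are coprime). -/
theorem t_pts : S_PTSc := by
  intro K N _ _ _ _ _ Θ u w D₀ D d B m hDD hBB hUW hD0 hcop hdvd ν s hs
  have : CharP N 2 := charP_of_injective_algebraMap (algebraMap K N).injective 2
  have hF : Fact (Nat.Prime 2) := ⟨Nat.prime_two⟩
  have h80 : (8 : ℕ) ≠ 0 := by norm_num
  set P := P8 Θ u w D B d ν s with hP
  obtain ⟨hPd, hPl⟩ := P8_deg hD0 hUW.monic hUW.degu hDD.monic hDD.deg hBB.one hBB.m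
    hBB.coeff ν s
  rw [← hP] at hPd hPl
  have hlc : (algebraMap K N D.leadingCoeff) ^ (8 * d) ≠ 0 := by
    refine pow_ne_zero _ fun h0 => ?_
    rw [map_eq_zero] at h0
    exact hD0 (leadingCoeff_eq_zero.1 h0)
  have hP0 : P ≠ 0 := by
    intro h0
    rw [h0, leadingCoeff_zero] at hPl
    exact hlc hPl.symm
  -- points are roots
  have hroot : ∀ a b, Pt8 Θ u w D B ν s a b → P.eval a = 0 := by
    rintro a b ⟨h1, -, h3⟩
    rw [hP, P8_eval_pt hDD.deg ν h3, h1, zero_pow h80, mul_zero]
  have hcoefd : Θ.coeff d = 1 := by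
    rw [← hDD.deg]
    exact hDD.monic
  have hlast : ∀ a : N, s * aeval a w * (aeval a D) ^ 8 = 0 →
      P.eval a = ((G8 u w D B ν).eval a) ^ d := by
    intro a h0
    rw [hP, P8_eval, h0, Finset.sum_range_succ, Finset.sum_eq_zero, zero_add, Nat.sub_self,
      pow_zero, mul_one, hcoefd, map_one, one_pow, one_mul]
    intro k hk
    have := Finset.mem_range.1 hk
    rw [zero_pow (by omega), mul_zero]
  -- roots are not zeros of `D` and `w`
  have hDw : ∀ a, P.eval a = 0 → aeval a D ≠ 0 ∧ aeval a w ≠ 0 := by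
    intro a ha
    have hcopa : aeval a w = 0 → aeval a D = 0 → False := by
      intro h1 h2
      obtain ⟨p, q, hpq⟩ := hcop
      have := congrArg (aeval a) hpq
      rw [map_add, map_mul, map_mul, h1, h2, mul_zero, mul_zero, add_zero, map_one] at this
      exact zero_ne_one this
    constructor
    · intro h0
      have h1 : (G8 u w D B ν).eval a = aeval a w := by
        unfold G8
        simp only [eval_add, eval_mul, eval_pow, eval_X, eval_map_algebraMap, h0, zero_pow h80,
          mul_zero, zero_mul, zero_add, eval_one, one_pow, add_zero, mul_one]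
      have h2 := hlast a (by rw [h0, zero_pow h80, mul_zero])
      rw [h1, ha] at h2
      exact hcopa (pow_eq_zero_iff hDD.pos.ne' |>.1 h2.symm) h0
    · intro h0
      have hD : aeval a D ≠ 0 := fun h => hcopa h0 h
      have hu : aeval a u ≠ 0 := by
        intro h1
        have := congrArg (aeval a) hUW.wr
        rw [map_sub, map_mul, map_mul, h0, h1, mul_zero, zero_mul, sub_zero, map_one] at this
        exact zero_ne_one this
      have h1 : (G8 u w D B ν).eval a = aeval a u * (aeval a D) ^ 8 := by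
        unfold G8
        simp only [eval_add, eval_mul, eval_pow, eval_X, eval_map_algebraMap, h0,
          zero_mul, add_zero]
      have h2 := hlast a (by rw [h0, mul_zero, zero_mul])
      rw [h1, ha] at h2
      exact (mul_ne_zero hu (pow_ne_zero _ hD)) (pow_eq_zero_iff hDD.pos.ne' |>.1 h2.symm)
  -- roots are points
  have hpt : ∀ a, P.eval a = 0 → ∃ b, Pt8 Θ u w D B ν s a b := by
    intro a ha
    obtain ⟨hDa, hwa⟩ := hDw a ha
    obtain ⟨b, hb⟩ := IsAlgClosed.exists_pow_nat_eq
      ((G8 u w D B ν).eval a / (s * aeval a w * (aeval a D) ^ 8)) (Nat.pos_of_ne_zero h80)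
    have hsD : s * aeval a w * (aeval a D) ^ 8 ≠ 0 :=
      mul_ne_zero (mul_ne_zero hs hwa) (pow_ne_zero _ hDa)
    have hg : (G8 u w D B ν).eval a = s * aeval a w * (aeval a D * b) ^ 8 := by
      rw [mul_pow, hb, ← mul_assoc, mul_div_cancel₀ _ hsD]
    refine ⟨b, ?_, hDa, hg⟩
    rw [hP, P8_eval_pt hDD.deg ν hg] at ha
    exact pow_eq_zero_iff h80 |>.1 ((mul_eq_zero.1 ha).resolve_left (pow_ne_zero _ hsD))
  have hder0 : ∀ a, P.eval a = 0 → (derivative P).eval a ≠ 0 := by
    intro a ha h00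
    obtain ⟨b, hb⟩ := hpt a ha
    obtain ⟨hDa, hwa⟩ := hDw a ha
    have h1 := P8_der_eval hUW hDD.deg ν ha hb.2.2
    rw [← hP, h00, mul_zero] at h1
    refine mul_ne_zero (mul_ne_zero (pow_ne_zero _ hDa) (pow_ne_zero _
      (mul_ne_zero (mul_ne_zero hs hwa) (pow_ne_zero _ hDa)))) (pow_ne_zero _ ?_) h1.symm
    have hD₀a : aeval a D₀ ≠ 0 := by
      intro h0
      apply hDa
      obtain ⟨q, hq⟩ := hdvd
      rw [hq, map_mul, h0, zero_mul]
    obtain ⟨β, -, hβ, hprod⟩ := Pool.Agent.Y421.AW.t_res K N Θ D₀ d hDD a hD₀a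
    obtain ⟨i, hi⟩ := (hβ b).1 hb.1
    rw [hi]
    intro h0
    rw [← hprod] at hD₀a
    exact hD₀a (Finset.prod_eq_zero (Finset.mem_univ i) h0)
  -- the roots
  classical
  have hnodup : P.roots.Nodup := by
    rw [Multiset.nodup_iff_count_le_one]
    intro a
    rw [count_roots]
    by_contra hcon
    push Not at hcon
    have h1 : P.IsRoot a := by
      by_contra h2
      rw [rootMultiplicity_eq_zero h2] at hcon
      omega
    exact hder0 a h1 ((one_lt_rootMultiplicity_iff_isRoot hP0).1 hcon).2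
  have hcard : P.roots.toFinset.card = np w D d B := by
    unfold np
    rw [Multiset.toFinset_card_of_nodup hnodup, ← hPd]
    exact (IsAlgClosed.splits P).natDegree_eq_card_roots.symm
  set e := (Finset.equivFinOfCardEq hcard) with he
  set x : Fin (np w D d B) → N := fun l => ((e.symm l : P.roots.toFinset) : N)
    with hx
  have hxinj : Function.Injective x := fun i j hij => e.symm.injective (Subtype.ext hij)
  have hxroot : ∀ l, P.eval (x l) = 0 := by
    intro l
    have h1 := (e.symm l).2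
    rw [Multiset.mem_toFinset, mem_roots hP0] at h1
    exact h1
  have hxall : ∀ a, P.eval a = 0 → ∃ l, a = x l := by
    intro a ha
    have h1 : a ∈ P.roots.toFinset := by
      rw [Multiset.mem_toFinset, mem_roots hP0]
      exact ha
    refine ⟨e ⟨a, h1⟩, ?_⟩
    simp only [hx, Equiv.symm_apply_apply]
  choose θ hθ using fun l => hpt (x l) (hxroot l)
  refine ⟨x, θ, hxinj, hθ, ?_⟩
  intro a b hab
  have hPa := hroot a b hab
  obtain ⟨l, hl⟩ := hxall a hPa
  refine ⟨l, hl, ?_⟩
  obtain ⟨hDa, hwa⟩ := hDw a hPa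
  subst hl
  have h1 := hab.2.2
  rw [(hθ l).2.2] at h1
  have h2 := mul_left_cancel₀ (mul_ne_zero hs hwa) h1
  have h3 : (aeval (x l) D * θ l - aeval (x l) D * b) ^ (2 ^ 3) = 0 := by
    rw [sub_pow_char_pow]
    norm_num
    rw [h2, sub_self]
  have h4 := sub_eq_zero.1 (pow_eq_zero_iff (by norm_num) |>.1 h3)
  exact (mul_left_cancel₀ hDa h4).symm

end Pool.Agent.L7h76.TP
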