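import Pool.Agent.L7h25.TP.Stm

/-!
`S_INS` of the project TP (helper25): descent of polynomials in `θ` to polynomials in `θ ^ 8` in
characteristic 2.
-/

set_option autoImplicit false

namespace Pool.Agent.L7h76.TP

open Polynomial

section

variable {R : Type} [CommRing R]

lemma dvd_of_expand {p : ℕ} (hp : p ≠ 0) {f g : R[X]} (h : expand R p g ∣ expand R p f) :
    g ∣ f := by
  obtain ⟨q, hq⟩ := h
  have := congrArg (contract p) hq
  rw [contract_expand _ hp, mul_comm, contract_mul_expand hp] at this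
  exact ⟨contract p q, by rw [this, mul_comm]⟩

lemma even_odd (y : R[X]) : ∃ e o : R[X], y = expand R 2 e + X * expand R 2 o := by
  induction y using Polynomial.induction_on' with
  | add p q hp hq =>
    obtain ⟨e, o, h⟩ := hp
    obtain ⟨e', o', h'⟩ := hq
    exact ⟨e + e', o + o', by rw [h, h', map_add, map_add]; ring⟩
  | monomial n a =>
    rcases Nat.even_or_odd' n with ⟨k, rfl | rfl⟩
    · exact ⟨monomial k a, 0, by rw [expand_monomial, map_zero, mul_zero, add_zero, mul_comm]⟩
    · exact ⟨0, monomial k a, by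
        rw [expand_monomial, map_zero, zero_add, X_mul_monomial, mul_comm]⟩

variable [CharP R 2]

lemma two_zero : (2 : R[X]) = 0 := by
  have : ((2 : ℕ) : R[X]) = 0 := CharP.cast_eq_zero R[X] 2
  exact_mod_cast this

lemma der_expand (f : R[X]) : derivative (expand R 2 f) = 0 := by
  rw [derivative_expand]
  have := two_zero (R := R)
  simp [this]

lemma expand_frob (f : R[X]) : expand R 2 (f.map (frobenius R 2)) = f ^ 2 := by
  rw [← map_expand, map_frobenius_expand]

lemma step (Θ A β : R[X]) (δ : R) (h : A * Θ + β * derivative Θ = C δ) (y : R[X]) :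
    ∃ y₁, Θ ∣ C (δ ^ 2) * y - expand R 2 y₁ := by
  obtain ⟨e, o, hΘ⟩ := even_odd Θ
  have hd : derivative Θ = expand R 2 o := by
    conv_lhs => rw [hΘ]
    rw [derivative_add, der_expand, derivative_mul, der_expand, derivative_X]
    ring
  obtain ⟨ye, yo, hy⟩ := even_odd y
  have hC : C (δ ^ 2) = (A * Θ + β * expand R 2 o) ^ 2 := by rw [C_pow, ← h, hd]
  have h2 := two_zero (R := R)
  have hX : X * expand R 2 o = Θ - expand R 2 e := by
    linear_combination -hΘ
  refine ⟨C (δ ^ 2) * ye + β.map (frobenius R 2) * o * e * yo, ?_⟩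
  have hE : expand R 2 (C (δ ^ 2) * ye + β.map (frobenius R 2) * o * e * yo)
      = C (δ ^ 2) * expand R 2 ye + β ^ 2 * expand R 2 o * expand R 2 e * expand R 2 yo := by
    rw [map_add, map_mul, map_mul, map_mul, map_mul, expand_C, expand_frob]
  have : C (δ ^ 2) * y - expand R 2 (C (δ ^ 2) * ye + β.map (frobenius R 2) * o * e * yo)
      = Θ * ((A ^ 2 * Θ * X + 2 * A * β * expand R 2 o * X + β ^ 2 * expand R 2 o)
        * expand R 2 yo) := by
    rw [hE, hy]
    have h3 : C (δ ^ 2) * X = Θ * (A ^ 2 * Θ * X + 2 * A * β * expand R 2 o * X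
        + β ^ 2 * expand R 2 o) + β ^ 2 * expand R 2 o * expand R 2 e := by
      rw [hC]
      linear_combination β ^ 2 * expand R 2 o * hX - β ^ 2 * expand R 2 o * expand R 2 e * h2
    linear_combination expand R 2 yo * h3
  rw [this]
  exact dvd_mul_right _ _

/-- the image under the frobenius -/
lemma frob_rel (Θ A β : R[X]) (δ : R) (h : A * Θ + β * derivative Θ = C δ) :
    A.map (frobenius R 2) * Θ.map (frobenius R 2)
      + β.map (frobenius R 2) * derivative (Θ.map (frobenius R 2)) = C (δ ^ 2) := by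
  rw [derivative_map, ← Polynomial.map_mul, ← Polynomial.map_mul, ← Polynomial.map_add, h, map_C,
    frobenius_def]

lemma three (Θ A β : R[X]) (δ : R) (h : A * Θ + β * derivative Θ = C δ) (y : R[X]) :
    ∃ y₃, Θ ∣ C (δ ^ 14) * y - expand R 8 y₃ := by
  obtain ⟨y₁, h₁⟩ := step Θ A β δ h y
  have hr₁ := frob_rel Θ A β δ h
  obtain ⟨y₂, h₂⟩ := step _ _ _ _ hr₁ y₁
  have hr₂ := frob_rel _ _ _ _ hr₁
  obtain ⟨y₃, h₃⟩ := step _ _ _ _ hr₂ y₂
  refine ⟨y₃, ?_⟩
  have e₂ : Θ ∣ C (δ ^ 4) * expand R 2 y₁ - expand R 4 y₂ := by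
    have := _root_.map_dvd (expand R 2) h₂
    rw [expand_frob, map_sub, map_mul, expand_C, expand_expand, ← pow_mul] at this
    exact (dvd_pow_self Θ (by norm_num)).trans this
  have e₃ : Θ ∣ C (δ ^ 8) * expand R 4 y₂ - expand R 8 y₃ := by
    have := _root_.map_dvd (expand R 2) (_root_.map_dvd (expand R 2) h₃)
    rw [expand_frob, map_pow, expand_frob, map_sub, map_sub, map_mul, map_mul, expand_C, expand_C,
      expand_expand, expand_expand, expand_expand, ← pow_mul, ← pow_mul, ← pow_mul] at this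
    exact (dvd_pow_self Θ (by norm_num)).trans this
  have key : C (δ ^ 14) * y - expand R 8 y₃ = C (δ ^ 12) * (C (δ ^ 2) * y - expand R 2 y₁)
      + (C (δ ^ 8) * (C (δ ^ 4) * expand R 2 y₁ - expand R 4 y₂)
      + (C (δ ^ 8) * expand R 4 y₂ - expand R 8 y₃)) := by
    simp only [C_pow]
    ring
  rw [key]
  exact dvd_add (h₁.mul_left _) (dvd_add (e₂.mul_left _) e₃)

/-- the polynomial with the eighth powers of the coefficients -/
lemma pw8_eq (Θ : R[X]) : Pool.Agent.L7h25.TP.pw8 Θ
    = ((Θ.map (frobenius R 2)).map (frobenius R 2)).map (frobenius R 2) := by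
  ext n
  unfold Pool.Agent.L7h25.TP.pw8
  rw [finsetSum_coeff]
  simp only [coeff_C_mul, coeff_X_pow, coeff_map, frobenius_def]
  rw [← pow_mul, ← pow_mul]
  by_cases hn : n ∈ Finset.range (Θ.natDegree + 1)
  · rw [Finset.sum_eq_single n]
    · simp
    · intro b _ hb
      rw [if_neg (fun h => hb h.symm), mul_zero]
    · intro h; exact absurd hn h
  · rw [Finset.sum_eq_zero, coeff_eq_zero_of_natDegree_lt]
    · norm_num
    · simp only [Finset.mem_range] at hn; omega
    · intro b hb
      rw [if_neg, mul_zero]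
      rintro rfl
      exact hn hb

lemma expand_eight (f : R[X]) :
    expand R 8 (((f.map (frobenius R 2)).map (frobenius R 2)).map (frobenius R 2)) = f ^ 8 := by
  have h8 : (8 : ℕ) = 2 * (2 * 2) := by norm_num
  rw [h8, expand_mul, expand_mul, expand_frob, map_pow, map_pow, expand_frob, map_pow, expand_frob]
  ring

end

/-- **INS**. -/
theorem t_ins : Pool.Agent.L7h25.TP.S_INS := by
  intro K _ _ Θ D₀ d hD
  have hdeg : (derivative Θ).natDegree ≤ d - 1 := by
    have := natDegree_derivative_le Θ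
    rw [hD.deg] at this
    exact this
  obtain ⟨A, β, -, -, hAB⟩ := exists_mul_add_mul_eq_C_resultant (m := d) (n := d - 1) Θ
    (derivative Θ) hD.deg.le hdeg (Or.inl hD.pos.ne')
  rw [hD.res] at hAB
  have hrel : A * Θ + β * derivative Θ = C D₀ := by rw [← hAB]; ring
  obtain ⟨V₀, hV₀⟩ := three Θ A β D₀ hrel (derivative Θ)
  obtain ⟨W, hW⟩ := three Θ A β D₀ hrel β
  have : Fact (Nat.Prime 2) := ⟨Nat.prime_two⟩
  refine ⟨14, 232, V₀, V₀ ^ 7 * W ^ 8, ?_, ?_⟩
  · apply dvd_of_expand (p := 8) (by norm_num)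
    rw [pw8_eq, expand_eight, derivative_map, derivative_map, derivative_map, map_sub, map_mul,
      expand_eight, map_pow, map_pow, expand_C]
    have h1 : (expand K[X] 8) V₀ ^ 8 - C D₀ ^ (8 * 14) * derivative Θ ^ 8
        = (expand K[X] 8 V₀ - C (D₀ ^ 14) * derivative Θ) ^ (2 ^ 3) := by
      rw [sub_pow_char_pow, mul_pow, C_pow, ← pow_mul]
      norm_num
    rw [h1]
    have h2 : Θ ∣ expand K[X] 8 V₀ - C (D₀ ^ 14) * derivative Θ := by
      rw [← neg_sub]
      exact (dvd_neg).2 hV₀
    exact pow_dvd_pow_of_dvd h2 8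
  · apply dvd_of_expand (p := 8) (by norm_num)
    rw [pw8_eq, expand_eight, map_sub, map_mul, map_mul, map_pow, map_pow, map_pow, expand_C]
    have h1 : (expand K[X] 8) V₀ * ((expand K[X] 8) V₀ ^ 7 * (expand K[X] 8) W ^ 8) - C D₀ ^ 232
        = (expand K[X] 8 V₀ * expand K[X] 8 W - C (D₀ ^ 29)) ^ (2 ^ 3) := by
      rw [sub_pow_char_pow, mul_pow, C_pow, ← pow_mul]
      ring
    rw [h1]
    have h2 : Θ ∣ expand K[X] 8 V₀ * expand K[X] 8 W - C (D₀ ^ 29) := by
      obtain ⟨q, hq⟩ := hV₀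
      obtain ⟨r, hr⟩ := hW
      refine ⟨-q * expand K[X] 8 W - C (D₀ ^ 14) * derivative Θ * r
        - C (D₀ ^ 28) * A, ?_⟩
      have e1 : expand K[X] 8 V₀ = C (D₀ ^ 14) * derivative Θ - Θ * q := by
        linear_combination -hq
      have e2 : expand K[X] 8 W = C (D₀ ^ 14) * β - Θ * r := by
        linear_combination -hr
      have e3 : C (D₀ ^ 29) = C (D₀ ^ 28) * (A * Θ + β * derivative Θ) := by
        rw [hrel]; simp only [C_pow]; ring
      rw [e3, e1, e2]
      simp only [C_pow]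
      ring
    exact pow_dvd_pow_of_dvd h2 8

end Pool.Agent.L7h76.TP
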