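import Pool.Agent.L7h25.TP.StmB

/-!
`S_SPZ` of the project TP (helper25): the action of an automorphism of `N` on the roots of the
specialized polynomial.
-/

set_option autoImplicit false

namespace Pool.Agent.L7h76.TP

open Polynomial Pool.Agent.Y140.AW Pool.Agent.L7h25.TP
open Pool.Agent.N70.EP (SgnIndex)

/-- Homomorphisms to a field which agree on the invariants are conjugate. -/
theorem exists_smul {A C G N : Type} [CommRing A] [CommRing C] [Algebra A C] [Group G] [Finite G]
    [MulSemiringAction G C] [SMulCommClass G A C] [Algebra.IsInvariant A C G] [Field N]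
    [Algebra A N] (φ : C →ₐ[A] N) (σ : N ≃ₐ[A] N) : ∃ g : G, ∀ x : C, φ (g • x) = σ (φ x) := by
  classical
  let P : Ideal A := RingHom.ker (algebraMap A N)
  let Q : Ideal C := RingHom.ker φ
  have hPQ : Q.LiesOver P := ⟨by
    ext a
    change algebraMap A N a = 0 ↔ φ (algebraMap A C a) = 0
    rw [φ.commutes]⟩
  have hQ : Q.IsPrime := RingHom.ker_isPrime φ
  let a1 : Algebra (A ⧸ P) N := (Ideal.Quotient.lift P (algebraMap A N) (fun a ha => ha)).toAlgebra
  let a2 : Algebra (C ⧸ Q) N := (Ideal.Quotient.lift Q (φ : C →+* N) (fun a ha => ha)).toAlgebra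
  have e1 : ∀ a : A, algebraMap (A ⧸ P) N (Ideal.Quotient.mk P a) = algebraMap A N a :=
    fun a => rfl
  have e2 : ∀ a : C, algebraMap (C ⧸ Q) N (Ideal.Quotient.mk Q a) = φ a := fun a => rfl
  have ht : IsScalarTower (A ⧸ P) (C ⧸ Q) N := IsScalarTower.of_algebraMap_eq fun y => by
    obtain ⟨a, rfl⟩ := Ideal.Quotient.mk_surjective y
    rw [e1]
    change _ = φ (algebraMap A C a)
    rw [φ.commutes]
  have hf : FaithfulSMul (C ⧸ Q) N := by
    rw [faithfulSMul_iff_algebraMap_injective]
    rw [injective_iff_map_eq_zero]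
    intro y hy
    obtain ⟨a, rfl⟩ := Ideal.Quotient.mk_surjective y
    rw [e2] at hy
    exact Ideal.Quotient.eq_zero_iff_mem.2 hy
  let σ' : N ≃ₐ[A ⧸ P] N := AlgEquiv.ofRingEquiv (f := σ.toRingEquiv) (fun y => by
    obtain ⟨a, rfl⟩ := Ideal.Quotient.mk_surjective y
    rw [e1]
    exact σ.commutes a)
  obtain ⟨τ, hτ⟩ := Ideal.Quotient.exists_algEquiv_fixedPoint_quotient_under G P Q σ'
  obtain ⟨g, hg⟩ := Ideal.Quotient.stabilizerHom_surjective G P Q τ
  refine ⟨g.1, fun x => ?_⟩
  have h1 := hτ (Ideal.Quotient.mk Q x)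
  rw [← hg] at h1
  exact h1

/-- Extension of `t ↦ c` to the integral closure, over `L`. -/
theorem exists_hom {K L C N : Type} [Field K] [Field L] [Algebra K L] [FiniteDimensional K L]
    [CommRing C] [Algebra K[X] C] [Algebra.IsIntegral K[X] C] [Algebra L C]
    (hinj : Function.Injective (algebraMap K[X] C))
    (hc : ∀ a : K, algebraMap K[X] C (Polynomial.C a) = algebraMap L C (algebraMap K L a))
    [Field N] [IsAlgClosed N] [Algebra K N] [Algebra L N] [IsScalarTower K L N] (c : K) :
    ∃ φ : C →+* N, (∀ x : L, φ (algebraMap L C x) = algebraMap L N x) ∧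
      ∀ p : K[X], φ (algebraMap K[X] C p) = aeval (algebraMap K N c) p := by
  let P : Ideal K[X] := RingHom.ker (Polynomial.evalRingHom c)
  have hP : P.IsMaximal := RingHom.ker_isMaximal_of_surjective _ (fun a => ⟨Polynomial.C a, by simp⟩)
  obtain ⟨Q, hQ, hQP⟩ := Ideal.exists_ideal_over_maximal_of_isIntegral (S := C) P (by
    rw [(RingHom.injective_iff_ker_eq_bot _).1 hinj]
    exact bot_le)
  let F := C ⧸ Q
  let fF : Field F := Ideal.Quotient.field Q
  have hint : Algebra.IsIntegral L F := ⟨fun y => by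
    obtain ⟨x, rfl⟩ := Ideal.Quotient.mk_surjective y
    obtain ⟨f, hf, hf0⟩ := Algebra.IsIntegral.isIntegral (R := K[X]) x
    refine ⟨f.map ((algebraMap K L).comp (Polynomial.evalRingHom c)), hf.map _, ?_⟩
    rw [eval₂_map]
    have : (algebraMap L F).comp ((algebraMap K L).comp (Polynomial.evalRingHom c)) =
        (Ideal.Quotient.mk Q).comp (algebraMap K[X] C) := by
      refine RingHom.ext fun p => ?_
      change Ideal.Quotient.mk Q (algebraMap L C (algebraMap K L (p.eval c))) =
        Ideal.Quotient.mk Q (algebraMap K[X] C p)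
      rw [← hc, Ideal.Quotient.eq, ← map_sub]
      change _ ∈ Q
      have h1 : Polynomial.C (p.eval c) - p ∈ Q.comap (algebraMap K[X] C) := by
        rw [hQP]
        change Polynomial.eval c _ = 0
        simp
      exact h1
    rw [this, ← hom_eval₂, hf0, map_zero]⟩
  have halg : Algebra.IsAlgebraic L F := inferInstance
  let ι : F →ₐ[L] N := IsAlgClosed.lift
  refine ⟨(ι : F →+* N).comp (Ideal.Quotient.mk Q), fun x => ι.commutes x, fun p => ?_⟩
  have h1 : Ideal.Quotient.mk Q (algebraMap K[X] C p) =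
      Ideal.Quotient.mk Q (algebraMap L C (algebraMap K L (p.eval c))) := by
    rw [← hc, Ideal.Quotient.eq, ← map_sub]
    have h1 : p - Polynomial.C (p.eval c) ∈ Q.comap (algebraMap K[X] C) := by
      rw [hQP]
      change Polynomial.eval c _ = 0
      simp
    exact h1
  change ι (Ideal.Quotient.mk Q (algebraMap K[X] C p)) = _
  rw [h1]
  refine (ι.commutes _).trans ?_
  rw [← IsScalarTower.algebraMap_apply, aeval_algebraMap_apply, coe_aeval_eq_eval]

theorem s_SPZ : S_SPZ := by
  classical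
  intro K L Z N _ _ _ _ _ _ _ _ _ _ _ _ _ _ _ _ _ _ π hπ P d χ hsgn θ Θ D₀ hθ hΘ hD c hc z hz
    hz0 σ h hσ τ hτ
  obtain ⟨g, hg, hsg⟩ := hsgn
  let a0 : Algebra K[X] Z := ((algebraMap (RatFunc K) Z).comp (algebraMap K[X] (RatFunc K))).toAlgebra
  have tw : IsScalarTower K[X] (RatFunc K) Z := IsScalarTower.of_algebraMap_eq fun _ => rfl
  have hKZ : ∀ a : K, algebraMap K[X] Z (Polynomial.C a) = algebraMap L Z (algebraMap K L a) := by
    intro a
    rw [← IsScalarTower.algebraMap_apply K L Z, IsScalarTower.algebraMap_apply K[X] (RatFunc K) Z,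
      IsScalarTower.algebraMap_apply K (RatFunc K) Z]
    congr 1
  let C' := integralClosure K[X] Z
  have hcomm : SMulCommClass (Z ≃ₐ[RatFunc K] Z) K[X] Z := ⟨fun g p y => by
    rw [Algebra.smul_def, Algebra.smul_def, smul_mul']
    congr 1
    rw [IsScalarTower.algebraMap_apply K[X] (RatFunc K) Z]
    exact g.commutes _⟩
  have hcommC : SMulCommClass (Z ≃ₐ[RatFunc K] Z) K[X] C' := ⟨fun g p y =>
    Subtype.ext (hcomm.smul_comm g p (y : Z))⟩
  have hinjA : Function.Injective (algebraMap K[X] Z) := by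
    rw [IsScalarTower.algebraMap_eq K[X] (RatFunc K) Z]
    exact (algebraMap (RatFunc K) Z).injective.comp (IsFractionRing.injective K[X] (RatFunc K))
  have hinjC : Function.Injective (algebraMap K[X] C') := by
    intro p q hpq
    exact hinjA (congrArg (fun y : C' => (y : Z)) hpq)
  have hinv : Algebra.IsInvariant K[X] C' (Z ≃ₐ[RatFunc K] Z) := by
    refine ⟨fun b hb => ?_⟩
    have h1 : (b : Z) ∈ (⊥ : IntermediateField (RatFunc K) Z) := by
      rw [IsGalois.mem_bot_iff_fixed]
      intro g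
      exact congrArg (fun y : C' => (y : Z)) (hb g)
    rw [IntermediateField.mem_bot] at h1
    obtain ⟨c, hc⟩ := h1
    have h2 : IsIntegral K[X] c := by
      rw [← isIntegral_algebraMap_iff (algebraMap (RatFunc K) Z).injective, hc]
      exact b.2
    obtain ⟨a, rfl⟩ := IsIntegrallyClosed.algebraMap_eq_of_integral h2
    refine ⟨a, Subtype.ext ?_⟩
    rw [← hc]
    exact IsScalarTower.algebraMap_apply K[X] (RatFunc K) Z a
  have hLint : ∀ x : L, IsIntegral K[X] (algebraMap L Z x) := by
    intro x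
    obtain ⟨f, hf, hf0⟩ := Algebra.IsIntegral.isIntegral (R := K) x
    refine ⟨f.map Polynomial.C, hf.map _, ?_⟩
    rw [eval₂_map]
    have : (algebraMap K[X] Z).comp Polynomial.C = (algebraMap L Z).comp (algebraMap K L) :=
      RingHom.ext hKZ
    rw [this, ← hom_eval₂, hf0, map_zero]
  let aL : Algebra L C' := ((algebraMap L Z).codRestrict C'.toSubring hLint).toAlgebra
  have hLC : ∀ x : L, ((algebraMap L C' x : C') : Z) = algebraMap L Z x := fun x => rfl
  obtain ⟨φ, hφL, hφX⟩ := exists_hom (K := K) (L := L) (C := C') (N := N) hinjC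
    (fun a => Subtype.ext (hKZ a)) c
  let aN : Algebra K[X] N := ((aeval (algebraMap K N c) : K[X] →ₐ[K] N) : K[X] →+* N).toAlgebra
  let φ' : C' →ₐ[K[X]] N := { φ with commutes' := hφX }
  let σ' : N ≃ₐ[K[X]] N := AlgEquiv.ofRingEquiv (f := σ.toRingEquiv) (fun p => by
    change σ (aeval (algebraMap K N c) p) = aeval (algebraMap K N c) p
    rw [aeval_algebraMap_apply, σ.commutes])
  obtain ⟨γ, hγ⟩ := exists_smul (G := Z ≃ₐ[RatFunc K] Z) φ' σ'
  replace hγ : ∀ x : C', φ (γ • x) = σ (φ x) := hγ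
  -- `π γ = h`
  have hπγ : π γ = h := by
    ext x
    apply (algebraMap L N).injective
    rw [← hσ x, ← hφL x, ← hγ, ← hφL]
    congr 1
    apply Subtype.ext
    exact (hπ γ x).symm
  -- the polynomial `Θ`
  have hθint : IsIntegral K[X] θ := by
    refine ⟨Θ, hD.monic, ?_⟩
    have h1 : aeval θ (Θ.map (algebraMap K[X] (RatFunc K))) = 0 := by rw [hΘ, minpoly.aeval]
    rwa [aeval_map_algebraMap] at h1
  let θC : C' := ⟨θ, hθint⟩
  have hinjg : ∀ s t : Fin d, g s θ = g t θ → s = t := by
    intro s t hst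
    apply hg.1
    change (g s : (Z ≃ₐ[RatFunc K] Z) ⧸ P) = (g t : (Z ≃ₐ[RatFunc K] Z) ⧸ P)
    rw [QuotientGroup.eq, ← hθ]
    change (g s).symm ((g t) θ) = θ
    rw [← hst, AlgEquiv.symm_apply_apply]
  have hprod : Θ.map (algebraMap K[X] C') = ∏ t : Fin d, (X - Polynomial.C (g t • θC)) := by
    apply Polynomial.map_injective (algebraMap C' Z) Subtype.val_injective
    rw [Polynomial.map_map, ← IsScalarTower.algebraMap_eq, Polynomial.map_prod]
    have hmon : (Θ.map (algebraMap K[X] Z)).Monic := hD.monic.map _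
    have hroot : ∀ t : Fin d, (Θ.map (algebraMap K[X] Z)).IsRoot (g t θ) := by
      intro t
      rw [IsRoot.def, eval_map_algebraMap, ← aeval_map_algebraMap (RatFunc K), hΘ]
      rw [← AlgEquiv.coe_toAlgHom, aeval_algHom_apply, minpoly.aeval, map_zero]
    have e1 : ∏ t : Fin d, Polynomial.map (algebraMap C' Z) (X - Polynomial.C (g t • θC)) =
        ∏ t : Fin d, (X - Polynomial.C (g t θ)) := by
      refine Finset.prod_congr rfl fun t _ => ?_
      rw [Polynomial.map_sub, map_X, map_C]
      rfl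
    rw [e1]
    refine eq_of_monic_of_dvd_of_natDegree_le (monic_prod_of_monic _ _ fun t _ => monic_X_sub_C _)
      hmon ?_ ?_
    · refine Finset.prod_dvd_of_coprime ?_ (fun t _ => dvd_iff_isRoot.2 (hroot t))
      intro s _ t _ hst
      exact isCoprime_X_sub_C_of_isUnit_sub (sub_ne_zero.2 fun h1 => hst (hinjg s t h1)).isUnit
    · rw [natDegree_prod_of_monic _ _ fun t _ => monic_X_sub_C _, hD.monic.natDegree_map, hD.deg]
      simp
  let y : Fin d → N := fun t => φ (g t • θC)
  have hprod' : tA Θ (algebraMap K N c) = ∏ t : Fin d, (X - Polynomial.C (y t)) := by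
    have h1 := congrArg (Polynomial.map φ) hprod
    rw [Polynomial.map_map, Polynomial.map_prod] at h1
    have h2 : φ.comp (algebraMap K[X] C') =
        (Polynomial.aeval (algebraMap K N c) : K[X] →ₐ[K] N).toRingHom := RingHom.ext hφX
    rw [h2] at h1
    rw [tA, h1]
    refine Finset.prod_congr rfl fun t _ => ?_
    rw [Polynomial.map_sub, map_X, map_C]
  have hz1 : ∀ i, ∃ t, z i = y t := by
    intro i
    have h1 := hz0 i
    rw [hprod', eval_prod, Finset.prod_eq_zero_iff] at h1
    obtain ⟨t, -, ht⟩ := h1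
    exact ⟨t, by simpa [sub_eq_zero] using ht⟩
  choose e he using hz1
  have hei : Function.Injective e := fun i j hij => hz (by rw [he, he, hij])
  let e' : Fin d ≃ Fin d := Equiv.ofBijective e (Finite.injective_iff_bijective.1 hei)
  have hyi : Function.Injective y := by
    intro s t hst
    obtain ⟨i, rfl⟩ := e'.surjective s
    obtain ⟨j, rfl⟩ := e'.surjective t
    have : z i = z j := by rw [he, he]; exact hst
    rw [hz this]
  -- the permutation of the cosets
  have hρ : ∀ t, ∃ t', ((γ * g t : Z ≃ₐ[RatFunc K] Z) : (Z ≃ₐ[RatFunc K] Z) ⧸ P) = g t' := by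
    intro t
    obtain ⟨t', ht'⟩ := hg.2 ((γ * g t : Z ≃ₐ[RatFunc K] Z) : (Z ≃ₐ[RatFunc K] Z) ⧸ P)
    exact ⟨t', ht'.symm⟩
  choose ρ hρ using hρ
  have hρy : ∀ t, σ (y t) = y (ρ t) := by
    intro t
    change σ (φ (g t • θC)) = φ (g (ρ t) • θC)
    rw [← hγ]
    congr 1
    apply Subtype.ext
    change γ (g t θ) = g (ρ t) θ
    have h1 := hρ t
    rw [QuotientGroup.eq, ← hθ] at h1
    have h2 : ((γ * g t)⁻¹ * g (ρ t)) θ = (g t).symm (γ.symm (g (ρ t) θ)) := by
      rw [mul_inv_rev]
      rfl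
    rw [h2, AlgEquiv.symm_apply_eq, AlgEquiv.symm_apply_eq] at h1
    exact h1.symm
  have hρi : Function.Injective ρ := by
    intro s t hst
    apply hyi
    apply σ.injective
    rw [hρy, hρy, hst]
  let ρ' : Equiv.Perm (Fin d) := Equiv.ofBijective ρ (Finite.injective_iff_bijective.1 hρi)
  have h1 := hsg γ ρ' hρ
  rw [MonoidHom.comp_apply, hπγ] at h1
  rw [← h1]
  have h2 : ρ' = (e'.symm.trans τ).trans e' := by
    ext t
    congr 1
    obtain ⟨i, rfl⟩ := e'.surjective t
    rw [Equiv.trans_apply, Equiv.trans_apply, Equiv.symm_apply_apply]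
    apply hyi
    change y (ρ (e i)) = y (e (τ i))
    rw [← hρy, ← he, ← he, hτ]
  rw [h2, Equiv.Perm.sign_symm_trans_trans]

end Pool.Agent.L7h76.TP
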